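import Pool.Agent.H78.FPP

namespace Pool.Agent.Results.MP_12ef09_al.Counter

open Pool.Agent.H78.FPP

/-- A closed group on the binary tree with fixed-point proportion zero all of whose finitely generated
subgroups have positive fixed-point proportion. -/
theorem result : ∃ G : Subgroup (T ≃g T), IsClosedSub G ∧ fpp G = 0 ∧
    ∀ (n : ℕ) (g : Fin n → T ≃g T), (∀ i, g i ∈ G) → 0 < fpp (Subgroup.closure (Set.range g)) :=
  main

end Pool.Agent.Results.MP_12ef09_al.Counter
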